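import Mathlib

/-!
# MP_582e6d_pr: the father should play the mother first

Three players `F`, `M`, `S`; the winner of a game next plays the player who sat out; the first
player with `N` game wins wins the tournament.  With `a = Pr(F beats M)`, `b = Pr(F beats S)`,
`c = Pr(M beats S)`, `b ≤ a` and `c ≤ 1/2` we prove that the first pairing `{F, M}` is optimal for
`F`, for every `N ≥ 1`.

Idea of the proof.  The expected numbers of visits of the states (next pairing; numbers of wins)
have a rational generating function with the common denominator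
`1 - a b z^2 - c (1-a) X^2 - (1-c)(1-b) Y^2 - (a c (1-b) + b (1-c)(1-a)) z X Y`, whose inverse
generates the weights `K i j k` of lattice paths with steps `(2,0,0)`, `(0,2,0)`, `(0,0,2)`,
`(1,1,1)`.  All winning probabilities are short combinations of sums of `K (N-1)` over boxes.
Parity (`K i j k = 0` unless `i`, `j`, `k` have the same parity) and the mirror identity
`m ^ h K i j (j+2h) = s ^ h K i (j+2h) j` with `m = c (1-a) ≤ s = (1-c)(1-b)` give both
inequalities.
-/

open Finset

namespace Pool.Agent.Results.MP_582e6d_pr.MotherFirst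

/-- Lattice path kernel: total weight of the paths from `(0,0,0)` to `(i,j,k)` with steps
`(2,0,0)`, `(0,2,0)`, `(0,0,2)`, `(1,1,1)` of weights `t`, `m`, `s`, `o`. -/
noncomputable def K (t m s o : ℝ) (i j k : ℕ) : ℝ :=
  (if i = 0 ∧ j = 0 ∧ k = 0 then 1 else 0) +
  (if _h : 2 ≤ i then t * K t m s o (i - 2) j k else 0) +
  (if _h : 2 ≤ j then m * K t m s o i (j - 2) k else 0) +
  (if _h : 2 ≤ k then s * K t m s o i j (k - 2) else 0) +
  (if _h : 1 ≤ i ∧ 1 ≤ j ∧ 1 ≤ k then o * K t m s o (i - 1) (j - 1) (k - 1) else 0)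
termination_by i + j + k

section kernel
variable (t m s o : ℝ)

lemma K_eq (i j k : ℕ) : K t m s o i j k =
    (if i = 0 ∧ j = 0 ∧ k = 0 then 1 else 0) +
    (if _h : 2 ≤ i then t * K t m s o (i - 2) j k else 0) +
    (if _h : 2 ≤ j then m * K t m s o i (j - 2) k else 0) +
    (if _h : 2 ≤ k then s * K t m s o i j (k - 2) else 0) +
    (if _h : 1 ≤ i ∧ 1 ≤ j ∧ 1 ≤ k then o * K t m s o (i - 1) (j - 1) (k - 1) else 0) := by
  rw [K]

lemma K_nonneg (ht : 0 ≤ t) (hm : 0 ≤ m) (hs : 0 ≤ s) (ho : 0 ≤ o) :
    ∀ n i j k : ℕ, i + j + k ≤ n → 0 ≤ K t m s o i j k := by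
  intro n
  induction n with
  | zero =>
    intro i j k h
    have hi : i = 0 := by omega
    have hj : j = 0 := by omega
    have hk : k = 0 := by omega
    subst hi hj hk
    rw [K]
    simp
  | succ n ih =>
    intro i j k h
    rw [K]
    have h1 : (0:ℝ) ≤ (if i = 0 ∧ j = 0 ∧ k = 0 then 1 else 0) := by split_ifs <;> norm_num
    have h2 : (0:ℝ) ≤ (if _h : 2 ≤ i then t * K t m s o (i - 2) j k else 0) := by
      split_ifs with h
      · exact mul_nonneg ht (ih _ _ _ (by omega))
      · exact le_rfl
    have h3 : (0:ℝ) ≤ (if _h : 2 ≤ j then m * K t m s o i (j - 2) k else 0) := by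
      split_ifs with h
      · exact mul_nonneg hm (ih _ _ _ (by omega))
      · exact le_rfl
    have h4 : (0:ℝ) ≤ (if _h : 2 ≤ k then s * K t m s o i j (k - 2) else 0) := by
      split_ifs with h
      · exact mul_nonneg hs (ih _ _ _ (by omega))
      · exact le_rfl
    have h5 : (0:ℝ) ≤ (if _h : 1 ≤ i ∧ 1 ≤ j ∧ 1 ≤ k then
        o * K t m s o (i - 1) (j - 1) (k - 1) else 0) := by
      split_ifs with h
      · exact mul_nonneg ho (ih _ _ _ (by omega))
      · exact le_rfl
    linarith

lemma K_par : ∀ n i j k : ℕ, i + j + k ≤ n → (i % 2 ≠ j % 2 ∨ i % 2 ≠ k % 2) →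
    K t m s o i j k = 0 := by
  intro n
  induction n with
  | zero =>
    intro i j k h h2
    omega
  | succ n ih =>
    intro i j k h hp
    rw [K]
    have h1 : (if i = 0 ∧ j = 0 ∧ k = 0 then (1:ℝ) else 0) = 0 := by
      rw [if_neg]; omega
    have h2 : (if _h : 2 ≤ i then t * K t m s o (i - 2) j k else 0) = 0 := by
      split_ifs with h
      · rw [ih _ _ _ (by omega) (by omega), mul_zero]
      · rfl
    have h3 : (if _h : 2 ≤ j then m * K t m s o i (j - 2) k else 0) = 0 := by
      split_ifs with h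
      · rw [ih _ _ _ (by omega) (by omega), mul_zero]
      · rfl
    have h4 : (if _h : 2 ≤ k then s * K t m s o i j (k - 2) else 0) = 0 := by
      split_ifs with h
      · rw [ih _ _ _ (by omega) (by omega), mul_zero]
      · rfl
    have h5 : (if _h : 1 ≤ i ∧ 1 ≤ j ∧ 1 ≤ k then
        o * K t m s o (i - 1) (j - 1) (k - 1) else 0) = 0 := by
      split_ifs with h
      · rw [ih _ _ _ (by omega) (by omega), mul_zero]
      · rfl
    rw [h1, h2, h3, h4, h5]
    norm_num

lemma K_sym : ∀ n i j h : ℕ, i + 2 * j + 2 * h ≤ n →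
    m ^ h * K t m s o i j (j + 2 * h) = s ^ h * K t m s o i (j + 2 * h) j := by
  intro n
  induction n with
  | zero =>
    intro i j h hh
    have hi : h = 0 := by omega
    subst hi
    simp
  | succ n ih =>
    intro i j h hh
    rcases Nat.eq_zero_or_pos h with h0 | h0
    · subst h0; simp
    rw [K_eq t m s o i j (j + 2 * h), K_eq t m s o i (j + 2 * h) j]
    have e1 : ¬ (i = 0 ∧ j = 0 ∧ j + 2 * h = 0) := by omega
    have e2 : ¬ (i = 0 ∧ j + 2 * h = 0 ∧ j = 0) := by omega
    rw [if_neg e1, if_neg e2]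
    have a1 : m ^ h * (if _h : 2 ≤ i then t * K t m s o (i - 2) j (j + 2 * h) else 0)
        = s ^ h * (if _h : 2 ≤ i then t * K t m s o (i - 2) (j + 2 * h) j else 0) := by
      split_ifs with h1
      · have := ih (i - 2) j h (by omega)
        linear_combination t * this
      · simp
    have a2 : m ^ h * (if _h : 2 ≤ j then m * K t m s o i (j - 2) (j + 2 * h) else 0)
        = s ^ h * (if _h : 2 ≤ j then s * K t m s o i (j + 2 * h) (j - 2) else 0) := by
      split_ifs with h1
      · have := ih i (j - 2) (h + 1) (by omega)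
        have e3 : j - 2 + 2 * (h + 1) = j + 2 * h := by omega
        rw [e3, pow_succ, pow_succ] at this
        linear_combination this
      · simp
    have a3 : m ^ h * (if _h : 2 ≤ j + 2 * h then s * K t m s o i j (j + 2 * h - 2) else 0)
        = s ^ h * (if _h : 2 ≤ j + 2 * h then m * K t m s o i (j + 2 * h - 2) j else 0) := by
      have h1 : 2 ≤ j + 2 * h := by omega
      rw [dif_pos h1, dif_pos h1]
      obtain ⟨h', rfl⟩ : ∃ h', h = h' + 1 := ⟨h - 1, by omega⟩
      have := ih i j h' (by omega)
      have e3 : j + 2 * (h' + 1) - 2 = j + 2 * h' := by omega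
      rw [e3, pow_succ, pow_succ]
      linear_combination (m * s) * this
    have a4 : m ^ h * (if _h : 1 ≤ i ∧ 1 ≤ j ∧ 1 ≤ j + 2 * h then
          o * K t m s o (i - 1) (j - 1) (j + 2 * h - 1) else 0)
        = s ^ h * (if _h : 1 ≤ i ∧ 1 ≤ j + 2 * h ∧ 1 ≤ j then
          o * K t m s o (i - 1) (j + 2 * h - 1) (j - 1) else 0) := by
      by_cases h1 : 1 ≤ i ∧ 1 ≤ j
      · rw [dif_pos ⟨h1.1, h1.2, by omega⟩, dif_pos ⟨h1.1, by omega, h1.2⟩]
        have := ih (i - 1) (j - 1) h (by omega)
        have e3 : j - 1 + 2 * h = j + 2 * h - 1 := by omega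
        rw [e3] at this
        linear_combination o * this
      · rw [dif_neg (by tauto), dif_neg (by tauto)]
        simp
    linear_combination a1 + a2 + a3 + a4

/-- For `j < k` with `k - j = 2 h`: the mirror image inequality. -/
lemma K_mirror (hm : 0 < m) (hms : m ≤ s) (ht : 0 ≤ t) (ho : 0 ≤ o) (i j h : ℕ) (hh : 1 ≤ h) :
    s * K t m s o i (j + 2 * h) j ≤ m * K t m s o i j (j + 2 * h) := by
  obtain ⟨g, rfl⟩ : ∃ g, h = g + 1 := ⟨h - 1, by omega⟩
  have h1 := K_sym t m s o _ i j (g + 1) le_rfl
  have hs : 0 < s := lt_of_lt_of_le hm hms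
  have h2 := K_nonneg t m s o ht hm.le hs.le ho _ i (j + 2 * (g + 1)) j le_rfl
  have h3 : m ^ g * (s * K t m s o i (j + 2 * (g + 1)) j)
      ≤ m ^ g * (m * K t m s o i j (j + 2 * (g + 1))) := by
    have h4 : m ^ g ≤ s ^ g := pow_le_pow_left₀ hm.le hms g
    have h5 : m ^ g * (s * K t m s o i (j + 2 * (g + 1)) j)
        ≤ s ^ g * (s * K t m s o i (j + 2 * (g + 1)) j) :=
      mul_le_mul_of_nonneg_right h4 (mul_nonneg hs.le h2)
    have h6 : s ^ g * (s * K t m s o i (j + 2 * (g + 1)) j)
        = m ^ g * (m * K t m s o i j (j + 2 * (g + 1))) := by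
      rw [pow_succ, pow_succ] at h1
      linear_combination -h1
    linarith
  exact le_of_mul_le_mul_left h3 (pow_pos hm g)

/-- The sums of the kernel over a box. -/
noncomputable def A (i β γ : ℕ) : ℝ := ∑ j ∈ range β, ∑ k ∈ range γ, K t m s o i j k

lemma shift2 (f : ℕ → ℝ) (n : ℕ) :
    ∑ k ∈ range n, (if 2 ≤ k then f (k - 2) else 0) = ∑ k ∈ range (n - 2), f k := by
  induction n with
  | zero => simp
  | succ n ih =>
    rw [sum_range_succ, ih]
    by_cases h : 2 ≤ n
    · rw [if_pos h]
      obtain ⟨p, rfl⟩ : ∃ p, n = p + 2 := ⟨n - 2, by omega⟩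
      have : p + 2 + 1 - 2 = p + 1 := by omega
      rw [this, sum_range_succ]
      simp
    · rw [if_neg h]
      have h1 : n - 2 = 0 := by omega
      have h2 : n + 1 - 2 = 0 := by omega
      rw [h1, h2]
      simp

lemma shift1 (f : ℕ → ℝ) (n : ℕ) :
    ∑ k ∈ range n, (if 1 ≤ k then f (k - 1) else 0) = ∑ k ∈ range (n - 1), f k := by
  induction n with
  | zero => simp
  | succ n ih =>
    rw [sum_range_succ, ih]
    by_cases h : 1 ≤ n
    · rw [if_pos h]
      obtain ⟨p, rfl⟩ : ∃ p, n = p + 1 := ⟨n - 1, by omega⟩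
      have : p + 1 + 1 - 1 = p + 1 := by omega
      rw [this, sum_range_succ]
      simp
    · rw [if_neg h]
      have h1 : n - 1 = 0 := by omega
      have h2 : n + 1 - 1 = 0 := by omega
      rw [h1, h2]
      simp

lemma A_rec (i β γ : ℕ) : A t m s o i β γ =
    (if i = 0 ∧ 1 ≤ β ∧ 1 ≤ γ then 1 else 0) +
    (if 2 ≤ i then t * A t m s o (i - 2) β γ else 0) +
    m * A t m s o i (β - 2) γ + s * A t m s o i β (γ - 2) +
    (if 1 ≤ i then o * A t m s o (i - 1) (β - 1) (γ - 1) else 0) := by
  unfold A
  have h0 : ∀ j k, K t m s o i j k =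
      (if i = 0 ∧ j = 0 ∧ k = 0 then 1 else 0) +
      (if 2 ≤ i then t * K t m s o (i - 2) j k else 0) +
      (if 2 ≤ j then m * K t m s o i (j - 2) k else 0) +
      (if 2 ≤ k then s * K t m s o i j (k - 2) else 0) +
      (if 1 ≤ i ∧ 1 ≤ j ∧ 1 ≤ k then o * K t m s o (i - 1) (j - 1) (k - 1) else 0) := by
    intro j k
    rw [K]
    simp only [dite_eq_ite]
  calc ∑ j ∈ range β, ∑ k ∈ range γ, K t m s o i j k
      = ∑ j ∈ range β, ∑ k ∈ range γ,
        ((if i = 0 ∧ j = 0 ∧ k = 0 then 1 else 0) +
      (if 2 ≤ i then t * K t m s o (i - 2) j k else 0) +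
      (if 2 ≤ j then m * K t m s o i (j - 2) k else 0) +
      (if 2 ≤ k then s * K t m s o i j (k - 2) else 0) +
      (if 1 ≤ i ∧ 1 ≤ j ∧ 1 ≤ k then o * K t m s o (i - 1) (j - 1) (k - 1) else 0)) :=
        sum_congr rfl fun j _ => sum_congr rfl fun k _ => h0 j k
    _ = _ := by
      simp only [sum_add_distrib]
      congr 1
      · congr 1
        · congr 1
          · congr 1
            · -- delta
              by_cases hi : i = 0
              · by_cases hb : 1 ≤ β
                · by_cases hg : 1 ≤ γ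
                  · rw [if_pos ⟨hi, hb, hg⟩]
                    rw [sum_eq_single 0, sum_eq_single 0]
                    · simp [hi]
                    · intro k _ hk; simp [hk]
                    · intro h; exact absurd (mem_range.2 hg) h
                    · intro j _ hj
                      apply sum_eq_zero
                      intro k _
                      simp [hj]
                    · intro h; exact absurd (mem_range.2 hb) h
                  · have : γ = 0 := by omega
                    subst this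
                    simp
                · have : β = 0 := by omega
                  subst this
                  simp
              · simp [hi]
            · split_ifs with hi
              · simp only [mul_sum]
              · simp
          · -- m
            have := shift2 (fun j => ∑ k ∈ range γ, m * K t m s o i j k) β
            rw [mul_sum]
            simp only [mul_sum]
            rw [← this]
            apply sum_congr rfl
            intro j _
            split_ifs with hj
            · rfl
            · simp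
        · rw [mul_sum]
          apply sum_congr rfl
          intro j _
          rw [shift2 (fun k => s * K t m s o i j k) γ, mul_sum]
      · by_cases hi : 1 ≤ i
        · rw [if_pos hi]
          have := shift1 (fun j => ∑ k ∈ range (γ - 1), o * K t m s o (i - 1) j k) β
          rw [mul_sum]
          simp only [mul_sum]
          rw [← this]
          apply sum_congr rfl
          intro j _
          by_cases hj : 1 ≤ j
          · rw [if_pos hj]
            rw [← shift1 (fun k => o * K t m s o (i - 1) (j - 1) k) γ]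
            apply sum_congr rfl
            intro k _
            by_cases hk : 1 ≤ k
            · rw [if_pos ⟨hi, hj, hk⟩, if_pos hk]
            · rw [if_neg (by tauto), if_neg hk]
          · rw [if_neg hj]
            apply sum_eq_zero
            intro k _
            rw [if_neg (by tauto)]
        · rw [if_neg hi]
          apply sum_eq_zero
          intro j _
          apply sum_eq_zero
          intro k _
          rw [if_neg (by tauto)]

end kernel

/-! ## The tournament -/

/-- The three possible pairings. -/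
inductive Pairing
  | FM
  | FS
  | MS

/-- A state of the tournament: the pairing of the next game and the numbers of games won so far
by the father, the mother and the son. -/
structure State where
  next : Pairing
  f : ℕ
  m : ℕ
  s : ℕ

/-- One game. The triple `r` tells whether `F` beats `M`, whether `F` beats `S` and whether `M`
beats `S`, should these two play; the winner of the game next plays the player who sat out. -/
def play (r : Bool × Bool × Bool) : State → State
  | ⟨.FM, f, m, s⟩ => if r.1 then ⟨.FS, f + 1, m, s⟩ else ⟨.MS, f, m + 1, s⟩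
  | ⟨.FS, f, m, s⟩ => if r.2.1 then ⟨.FM, f + 1, m, s⟩ else ⟨.MS, f, m, s + 1⟩
  | ⟨.MS, f, m, s⟩ => if r.2.2 then ⟨.FM, f, m + 1, s⟩ else ⟨.FS, f, m, s + 1⟩

/-- `F` wins the first-to-`N` tournament that continues from the given state, the games having
the results listed: the tournament stops as soon as somebody has `N` wins. -/
def fatherWins (N : ℕ) : List (Bool × Bool × Bool) → State → Prop
  | [], x => x.f = N
  | r :: l, x => x.f = N ∨ (x.m ≠ N ∧ x.s ≠ N ∧ fatherWins N l (play r x))

/-- The weight of the result `r` of a game won with probability `p`. -/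
def law (p : ℝ) (r : Bool) : ℝ := if r then p else 1 - p

open Classical in
/-- The probability that `F` wins the first-to-`N` tournament which is in the state `x`, if `T`
further games are scheduled: the results `ω 0, ω 1, ...` are independent, and for every scheduled
game the results of the three possible pairings are independent with success probabilities
`a`, `b`, `c` (only the result of the pairing that is really played is used). -/
noncomputable def prob (a b c : ℝ) (N T : ℕ) (x : State) : ℝ :=
  ∑ ω : Fin T → Bool × Bool × Bool,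
    (∏ n, law a (ω n).1 * law b (ω n).2.1 * law c (ω n).2.2) *
      (if fatherWins N (List.ofFn ω) x then 1 else 0)

/-- `P_N(X; a, b, c)`: the probability that `F` wins the first-to-`N` tournament with first
pairing `X` (it is over after at most `3 N - 2` games). -/
noncomputable def P (N : ℕ) (X : Pairing) (a b c : ℝ) : ℝ :=
  prob a b c N (3 * N - 2) ⟨X, 0, 0, 0⟩

section prob
variable (a b c : ℝ) (N : ℕ)

lemma prob_fin (T : ℕ) (x : State) (h : x.f = N) : prob a b c N T x = 1 := by
  classical
  unfold prob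
  have h1 : ∀ ω : Fin T → Bool × Bool × Bool, fatherWins N (List.ofFn ω) x := by
    intro ω
    rcases List.ofFn ω with _ | ⟨r, l⟩
    · exact h
    · exact Or.inl h
  simp only [h1, if_true, mul_one]
  have h2 : ∏ n : Fin T, ∑ r : Bool × Bool × Bool, law a r.1 * law b r.2.1 * law c r.2.2
      = ∑ ω : Fin T → Bool × Bool × Bool,
        ∏ n, law a (ω n).1 * law b (ω n).2.1 * law c (ω n).2.2 := by
    rw [Finset.prod_univ_sum]
    simp
  rw [← h2]
  apply prod_eq_one
  intro n _
  simp [Fintype.sum_prod_type, law]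
  ring

lemma prob_lose (T : ℕ) (x : State) (h : x.m = N ∨ x.s = N) (hf : x.f ≠ N) :
    prob a b c N T x = 0 := by
  classical
  unfold prob
  apply sum_eq_zero
  intro ω _
  rw [if_neg, mul_zero]
  rcases List.ofFn ω with _ | ⟨r, l⟩
  · exact hf
  · rintro (h1 | ⟨h1, h2, -⟩)
    · exact hf h1
    · rcases h with h | h
      · exact h1 h
      · exact h2 h

lemma prob_succ (T : ℕ) (x : State) (hf : x.f ≠ N) (hm : x.m ≠ N) (hs : x.s ≠ N) :
    prob a b c N (T + 1) x = ∑ r : Bool × Bool × Bool,
      law a r.1 * law b r.2.1 * law c r.2.2 * prob a b c N T (play r x) := by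
  classical
  unfold prob
  rw [← (Fin.consEquiv (fun _ : Fin (T + 1) => Bool × Bool × Bool)).sum_comp,
    Fintype.sum_prod_type]
  apply sum_congr rfl
  intro r _
  rw [mul_sum]
  apply sum_congr rfl
  intro ω _
  simp only [Fin.consEquiv_apply, Fin.prod_univ_succ, Fin.cons_zero, Fin.cons_succ,
    List.ofFn_succ]
  have h1 : fatherWins N (r :: List.ofFn ω) x ↔ fatherWins N (List.ofFn ω) (play r x) := by
    simp [fatherWins, hf, hm, hs]
  rw [mul_assoc (law a r.1 * law b r.2.1 * law c r.2.2)]
  congr 2
  simp only [h1]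

lemma prob_FM (T f m s : ℕ) (hf : f ≠ N) (hm : m ≠ N) (hs : s ≠ N) :
    prob a b c N (T + 1) ⟨.FM, f, m, s⟩ = a * prob a b c N T ⟨.FS, f + 1, m, s⟩ +
      (1 - a) * prob a b c N T ⟨.MS, f, m + 1, s⟩ := by
  rw [prob_succ a b c N T _ hf hm hs]
  simp [Fintype.sum_prod_type, law, play]
  ring

lemma prob_FS (T f m s : ℕ) (hf : f ≠ N) (hm : m ≠ N) (hs : s ≠ N) :
    prob a b c N (T + 1) ⟨.FS, f, m, s⟩ = b * prob a b c N T ⟨.FM, f + 1, m, s⟩ +
      (1 - b) * prob a b c N T ⟨.MS, f, m, s + 1⟩ := by
  rw [prob_succ a b c N T _ hf hm hs]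
  simp [Fintype.sum_prod_type, law, play]
  ring

lemma prob_MS (T f m s : ℕ) (hf : f ≠ N) (hm : m ≠ N) (hs : s ≠ N) :
    prob a b c N (T + 1) ⟨.MS, f, m, s⟩ = c * prob a b c N T ⟨.FM, f, m + 1, s⟩ +
      (1 - c) * prob a b c N T ⟨.FS, f, m, s + 1⟩ := by
  rw [prob_succ a b c N T _ hf hm hs]
  simp [Fintype.sum_prod_type, law, play]
  ring

/-- The sums of the kernel with the parameters of the tournament. -/
noncomputable def B (i β γ : ℕ) : ℝ :=
  A (a * b) (c * (1 - a)) ((1 - c) * (1 - b)) (a * c * (1 - b) + b * (1 - c) * (1 - a)) i β γ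

/-- Explicit winning probability, next game `{F, M}`; `F`, `M`, `S` still need `i + 1`, `β`, `γ`
wins. -/
noncomputable def GFM (i β γ : ℕ) : ℝ :=
  a * B a b c i β γ - a * (1 - c) * (1 - b) * B a b c i β (γ - 2) +
    (if 1 ≤ i then a * b * B a b c (i - 1) β γ else 0) +
    b * (1 - c) * (1 - a) * B a b c i (β - 1) (γ - 1)

/-- The same, next game `{F, S}`. -/
noncomputable def GFS (i β γ : ℕ) : ℝ :=
  b * B a b c i β γ - b * c * (1 - a) * B a b c i (β - 2) γ +
    (if 1 ≤ i then a * b * B a b c (i - 1) β γ else 0) +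
    a * c * (1 - b) * B a b c i (β - 1) (γ - 1)

/-- The same, next game `{M, S}`. -/
noncomputable def GMS (i β γ : ℕ) : ℝ :=
  a * c * B a b c i (β - 1) γ + b * (1 - c) * B a b c i β (γ - 1) +
    (if 1 ≤ i then a * b * (1 - c) * B a b c (i - 1) β (γ - 1) +
      a * b * c * B a b c (i - 1) (β - 1) γ else 0)

lemma B_zero_left (i γ : ℕ) : B a b c i 0 γ = 0 := by simp [B, A]

lemma B_zero_right (i β : ℕ) : B a b c i β 0 = 0 := by simp [B, A]

lemma G_zero_left (i γ : ℕ) : GFM a b c i 0 γ = 0 ∧ GFS a b c i 0 γ = 0 ∧ GMS a b c i 0 γ = 0 := by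
  simp [GFM, GFS, GMS, B_zero_left]

lemma G_zero_right (i β : ℕ) : GFM a b c i β 0 = 0 ∧ GFS a b c i β 0 = 0 ∧ GMS a b c i β 0 = 0 := by
  simp [GFM, GFS, GMS, B_zero_right]

lemma GMS_rec (i β γ : ℕ) : GMS a b c i β γ =
    c * GFM a b c i (β - 1) γ + (1 - c) * GFS a b c i β (γ - 1) := by
  have e1 : β - 1 - 1 = β - 2 := by omega
  have e2 : γ - 1 - 1 = γ - 2 := by omega
  simp only [GMS, GFM, GFS, e1, e2]
  split_ifs <;> ring

lemma GFM_rec (i β γ : ℕ) (hβ : 1 ≤ β) (hγ : 1 ≤ γ) : GFM a b c i β γ =
    a * (if i = 0 then 1 else GFS a b c (i - 1) β γ) + (1 - a) * GMS a b c i (β - 1) γ := by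
  have h := A_rec (a * b) (c * (1 - a)) ((1 - c) * (1 - b))
    (a * c * (1 - b) + b * (1 - c) * (1 - a)) i β γ
  have e1 : β - 1 - 1 = β - 2 := by omega
  change B a b c i β γ = (if i = 0 ∧ 1 ≤ β ∧ 1 ≤ γ then 1 else 0) +
    (if 2 ≤ i then a * b * B a b c (i - 2) β γ else 0) +
    c * (1 - a) * B a b c i (β - 2) γ + (1 - c) * (1 - b) * B a b c i β (γ - 2) +
    (if 1 ≤ i then (a * c * (1 - b) + b * (1 - c) * (1 - a)) *
      B a b c (i - 1) (β - 1) (γ - 1) else 0) at h
  simp only [GMS, GFM, GFS, e1]
  rcases Nat.eq_zero_or_pos i with hi | hi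
  · subst hi
    simp [hβ, hγ] at h ⊢
    linear_combination a * h
  · obtain ⟨p, rfl⟩ : ∃ p, i = p + 1 := ⟨i - 1, by omega⟩
    have e2 : p + 1 - 1 = p := by omega
    have e3 : p + 1 - 2 = p - 1 := by omega
    rcases Nat.eq_zero_or_pos p with hp | hp
    · subst hp
      simp at h ⊢
      linear_combination a * h
    · have h3 : 2 ≤ p + 1 := by omega
      have h4 : 1 ≤ p := hp
      simp [h3, h4, e2, e3] at h ⊢
      linear_combination a * h

lemma GFS_rec (i β γ : ℕ) (hβ : 1 ≤ β) (hγ : 1 ≤ γ) : GFS a b c i β γ =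
    b * (if i = 0 then 1 else GFM a b c (i - 1) β γ) + (1 - b) * GMS a b c i β (γ - 1) := by
  have h := A_rec (a * b) (c * (1 - a)) ((1 - c) * (1 - b))
    (a * c * (1 - b) + b * (1 - c) * (1 - a)) i β γ
  have e1 : γ - 1 - 1 = γ - 2 := by omega
  change B a b c i β γ = (if i = 0 ∧ 1 ≤ β ∧ 1 ≤ γ then 1 else 0) +
    (if 2 ≤ i then a * b * B a b c (i - 2) β γ else 0) +
    c * (1 - a) * B a b c i (β - 2) γ + (1 - c) * (1 - b) * B a b c i β (γ - 2) +
    (if 1 ≤ i then (a * c * (1 - b) + b * (1 - c) * (1 - a)) *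
      B a b c (i - 1) (β - 1) (γ - 1) else 0) at h
  simp only [GMS, GFM, GFS, e1]
  rcases Nat.eq_zero_or_pos i with hi | hi
  · subst hi
    simp [hβ, hγ] at h ⊢
    linear_combination b * h
  · obtain ⟨p, rfl⟩ : ∃ p, i = p + 1 := ⟨i - 1, by omega⟩
    have e2 : p + 1 - 1 = p := by omega
    have e3 : p + 1 - 2 = p - 1 := by omega
    rcases Nat.eq_zero_or_pos p with hp | hp
    · subst hp
      simp at h ⊢
      linear_combination b * h
    · have h3 : 2 ≤ p + 1 := by omega
      have h4 : 1 ≤ p := hp
      simp [h3, h4, e2, e3] at h ⊢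
      linear_combination b * h

/-- Explicit formulas for the winning probabilities. -/
lemma prob_eq : ∀ T f m s i β γ : ℕ, f + i + 1 = N → m + β = N → s + γ = N →
    i + β + γ ≤ T + 1 →
    prob a b c N T ⟨.FM, f, m, s⟩ = GFM a b c i β γ ∧
    prob a b c N T ⟨.FS, f, m, s⟩ = GFS a b c i β γ ∧
    prob a b c N T ⟨.MS, f, m, s⟩ = GMS a b c i β γ := by
  intro T
  induction T with
  | zero =>
    intro f m s i β γ hf hm hs hT
    have hfN : f ≠ N := by omega
    rcases Nat.eq_zero_or_pos β with hβ | hβ
    · subst hβ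
      obtain ⟨h1, h2, h3⟩ := G_zero_left a b c i γ
      rw [h1, h2, h3]
      refine ⟨?_, ?_, ?_⟩ <;> exact prob_lose a b c N _ _ (Or.inl (by simpa using hm)) hfN
    · have hγ : γ = 0 := by omega
      subst hγ
      obtain ⟨h1, h2, h3⟩ := G_zero_right a b c i β
      rw [h1, h2, h3]
      refine ⟨?_, ?_, ?_⟩ <;> exact prob_lose a b c N _ _ (Or.inr (by simpa using hs)) hfN
  | succ T ih =>
    intro f m s i β γ hf hm hs hT
    have hfN : f ≠ N := by omega
    rcases Nat.eq_zero_or_pos β with hβ | hβ
    · subst hβ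
      obtain ⟨h1, h2, h3⟩ := G_zero_left a b c i γ
      rw [h1, h2, h3]
      refine ⟨?_, ?_, ?_⟩ <;> exact prob_lose a b c N _ _ (Or.inl (by simpa using hm)) hfN
    rcases Nat.eq_zero_or_pos γ with hγ | hγ
    · subst hγ
      obtain ⟨h1, h2, h3⟩ := G_zero_right a b c i β
      rw [h1, h2, h3]
      refine ⟨?_, ?_, ?_⟩ <;> exact prob_lose a b c N _ _ (Or.inr (by simpa using hs)) hfN
    have hmN : m ≠ N := by omega
    have hsN : s ≠ N := by omega
    have hM := ih f (m + 1) s i (β - 1) γ hf (by omega) hs (by omega)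
    have hS := ih f m (s + 1) i β (γ - 1) hf hm (by omega) (by omega)
    have hF : prob a b c N T ⟨.FM, f + 1, m, s⟩ = (if i = 0 then 1 else GFM a b c (i - 1) β γ) ∧
        prob a b c N T ⟨.FS, f + 1, m, s⟩ = (if i = 0 then 1 else GFS a b c (i - 1) β γ) := by
      split_ifs with hi
      · have h1 : f + 1 = N := by omega
        exact ⟨prob_fin a b c N T _ h1, prob_fin a b c N T _ h1⟩
      · have := ih (f + 1) m s (i - 1) β γ (by omega) hm hs (by omega)
        exact ⟨this.1, this.2.1⟩
    refine ⟨?_, ?_, ?_⟩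
    · rw [prob_FM a b c N T f m s hfN hmN hsN, hF.2, hM.2.2, GFM_rec a b c i β γ hβ hγ]
    · rw [prob_FS a b c N T f m s hfN hmN hsN, hF.1, hS.2.2, GFS_rec a b c i β γ hβ hγ]
    · rw [prob_MS a b c N T f m s hfN hmN hsN, hM.1, hS.2.1, GMS_rec]

end prob

section final
variable (t m s o : ℝ)

lemma A_succ_left (i β γ : ℕ) : A t m s o i (β + 1) γ =
    A t m s o i β γ + ∑ k ∈ range γ, K t m s o i β k := by
  unfold A
  rw [sum_range_succ]

lemma A_succ_right (i β γ : ℕ) : A t m s o i β (γ + 1) =
    A t m s o i β γ + ∑ j ∈ range β, K t m s o i j γ := by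
  unfold A
  simp only [sum_range_succ]
  rw [sum_add_distrib]

lemma par_left (i β : ℕ) (h : i % 2 ≠ β % 2) (γ : ℕ) :
    A t m s o i (β + 1) γ = A t m s o i β γ := by
  rw [A_succ_left]
  rw [sum_eq_zero fun k _ => K_par t m s o _ i β k le_rfl (Or.inl h), add_zero]

lemma par_right (i γ : ℕ) (h : i % 2 ≠ γ % 2) (β : ℕ) :
    A t m s o i β (γ + 1) = A t m s o i β γ := by
  rw [A_succ_right]
  rw [sum_eq_zero fun j _ => K_par t m s o _ i j γ le_rfl (Or.inr h), add_zero]

lemma mirror_sum (hm : 0 < m) (hms : m ≤ s) (ht : 0 ≤ t) (ho : 0 ≤ o) (n : ℕ) :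
    s * ∑ j ∈ range n, K t m s o (n + 1) (n + 1) j ≤
      m * ∑ j ∈ range n, K t m s o (n + 1) j (n + 1) := by
  rw [mul_sum, mul_sum]
  apply sum_le_sum
  intro j hj
  have hj' := mem_range.1 hj
  by_cases hp : (n + 1) % 2 = j % 2
  · obtain ⟨h, hh⟩ : ∃ h, n + 1 = j + 2 * h := ⟨(n + 1 - j) / 2, by omega⟩
    have h1 : 1 ≤ h := by omega
    have := K_mirror t m s o hm hms ht ho (n + 1) j h h1
    rw [← hh] at this
    exact this
  · rw [K_par t m s o _ (n + 1) (n + 1) j le_rfl (Or.inr hp),
      K_par t m s o _ (n + 1) j (n + 1) le_rfl (Or.inl hp)]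
    simp

end final

/-- **Positive answer to Q1** (in a larger range of parameters). -/
theorem result (N : ℕ) (hN : 1 ≤ N) (a b c : ℝ) (hb : 0 < b) (hba : b ≤ a) (ha : a < 1)
    (hc : 0 < c) (hc2 : c ≤ 1 / 2) :
    P N .FS a b c ≤ P N .FM a b c ∧ P N .MS a b c ≤ P N .FM a b c := by
  have hP := prob_eq a b c N (3 * N - 2) 0 0 0 (N - 1) N N (by omega) (by omega) (by omega)
    (by omega)
  unfold P
  rw [hP.1, hP.2.1, hP.2.2]
  have ha0 : 0 < a := lt_of_lt_of_le hb hba
  rcases Nat.lt_or_ge N 2 with h2 | h2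
  · have h1 : N = 1 := by omega
    subst h1
    have e : B a b c 0 1 1 = 1 := by
      unfold B A
      rw [sum_range_one, sum_range_one, K_eq]
      simp
    simp [GFM, GFS, GMS, B_zero_left, B_zero_right, e]
    exact ⟨hba, ha0.le⟩
  · obtain ⟨n, rfl⟩ : ∃ n, N = n + 2 := ⟨N - 2, by omega⟩
    set t := a * b with ht
    set m := c * (1 - a) with hm
    set s := (1 - c) * (1 - b) with hs
    set o := a * c * (1 - b) + b * (1 - c) * (1 - a) with ho
    have hb1 : b < 1 := lt_of_le_of_lt hba ha
    have hc1 : c < 1 := by linarith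
    have t0 : 0 ≤ t := by positivity
    have m0 : 0 < m := mul_pos hc (by linarith)
    have s0 : 0 < s := mul_pos (by linarith) (by linarith)
    have o0 : 0 ≤ o := by
      have h3 : 0 ≤ a * c * (1 - b) := mul_nonneg (by positivity) (by linarith)
      have h4 : 0 ≤ b * (1 - c) * (1 - a) :=
        mul_nonneg (mul_nonneg hb.le (by linarith)) (by linarith)
      linarith
    have hms : m ≤ s := by
      rw [hm, hs]
      exact mul_le_mul (by linarith) (by linarith) (by linarith) (by linarith)
    have hs1 : s ≤ 1 := by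
      rw [hs]
      nlinarith
    set p := ∑ j ∈ range n, K t m s o (n + 1) j (n + 1) with hp
    set q := ∑ j ∈ range n, K t m s o (n + 1) (n + 1) j with hq
    set r := K t m s o (n + 1) (n + 1) (n + 1) with hr
    set z := A t m s o (n + 1) n n with hz
    set y := A t m s o n (n + 2) (n + 2) with hy
    have p0 : 0 ≤ p := sum_nonneg fun j _ => K_nonneg t m s o t0 m0.le s0.le o0 _ _ _ _ le_rfl
    have q0 : 0 ≤ q := sum_nonneg fun j _ => K_nonneg t m s o t0 m0.le s0.le o0 _ _ _ _ le_rfl
    have r0 : 0 ≤ r := K_nonneg t m s o t0 m0.le s0.le o0 _ _ _ _ le_rfl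
    have hpq : s * q ≤ m * p := mirror_sum t m s o m0 hms t0 o0 n
    have par1 : (n + 1) % 2 ≠ n % 2 := by omega
    have par2 : n % 2 ≠ (n + 1) % 2 := by omega
    have hS20' : A t m s o (n + 1) n (n + 2) = z + p := by
      have h1 : A t m s o (n + 1) n (n + 1 + 1) = A t m s o (n + 1) n (n + 1) + p :=
        A_succ_right t m s o (n + 1) n (n + 1)
      rw [par_right t m s o (n + 1) n par1 n] at h1
      exact h1
    have hS02' : A t m s o (n + 1) (n + 2) n = z + q := by
      have h1 : A t m s o (n + 1) (n + 1 + 1) n = A t m s o (n + 1) (n + 1) n + q :=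
        A_succ_left t m s o (n + 1) (n + 1) n
      rw [par_left t m s o (n + 1) n par1 n] at h1
      exact h1
    have hS11 : A t m s o (n + 1) (n + 1) (n + 1) = z := by
      rw [par_left t m s o (n + 1) n par1, par_right t m s o (n + 1) n par1]
    have hS12 : A t m s o (n + 1) (n + 1) (n + 2) = z + p := by
      rw [par_left t m s o (n + 1) n par1, hS20']
    have hS21 : A t m s o (n + 1) (n + 2) (n + 1) = z + q := by
      rw [par_right t m s o (n + 1) n par1, hS02']
    have hS00 : A t m s o (n + 1) (n + 2) (n + 2) = z + p + q + r := by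
      have h1 : A t m s o (n + 1) (n + 1 + 1) (n + 2) =
          A t m s o (n + 1) (n + 1) (n + 2) +
            ∑ k ∈ range (n + 2), K t m s o (n + 1) (n + 1) k :=
        A_succ_left t m s o (n + 1) (n + 1) (n + 2)
      rw [hS12, sum_range_succ, sum_range_succ,
        K_par t m s o _ (n + 1) (n + 1) n le_rfl (Or.inr par1)] at h1
      rw [h1]
      ring
    have hy1 : A t m s o n (n + 2) (n + 1) = y := (par_right t m s o n (n + 1) par2 _).symm
    have hy2 : A t m s o n (n + 1) (n + 2) = y := (par_left t m s o n (n + 1) par2 _).symm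
    have e1 : n + 2 - 1 = n + 1 := by omega
    have e2 : n + 2 - 2 = n := by omega
    have e3 : n + 1 - 1 = n := by omega
    have hn1 : 1 ≤ n + 1 := by omega
    have vFM : GFM a b c (n + 2 - 1) (n + 2) (n + 2) =
        a * (z + p + q + r) - a * s * (z + q) + a * b * y + b * (1 - c) * (1 - a) * z := by
      unfold GFM B
      rw [e1, e2, e3, if_pos hn1]
      change a * A t m s o (n + 1) (n + 2) (n + 2) - a * (1 - c) * (1 - b) *
        A t m s o (n + 1) (n + 2) n + a * b * y + b * (1 - c) * (1 - a) *
        A t m s o (n + 1) (n + 1) (n + 1) = _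
      rw [hS00, hS02', hS11, hs]
      ring
    have vFS : GFS a b c (n + 2 - 1) (n + 2) (n + 2) =
        b * (z + p + q + r) - b * m * (z + p) + a * b * y + a * c * (1 - b) * z := by
      unfold GFS B
      rw [e1, e2, e3, if_pos hn1]
      change b * A t m s o (n + 1) (n + 2) (n + 2) - b * c * (1 - a) *
        A t m s o (n + 1) n (n + 2) + a * b * y + a * c * (1 - b) *
        A t m s o (n + 1) (n + 1) (n + 1) = _
      rw [hS00, hS20', hS11, hm]
      ring
    have vMS : GMS a b c (n + 2 - 1) (n + 2) (n + 2) =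
        a * c * (z + p) + b * (1 - c) * (z + q) + a * b * y := by
      unfold GMS B
      rw [e1, e3, if_pos hn1]
      change a * c * A t m s o (n + 1) (n + 1) (n + 2) + b * (1 - c) *
        A t m s o (n + 1) (n + 2) (n + 1) + (a * b * (1 - c) * A t m s o n (n + 2) (n + 1) +
          a * b * c * A t m s o n (n + 1) (n + 2)) = _
      rw [hS12, hS21, hy1, hy2]
      ring
    rw [vFM, vFS, vMS]
    have hab : 0 ≤ a - b := by linarith
    constructor
    · have k1 : 0 ≤ (a - b) * (p + r) := mul_nonneg hab (by linarith)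
      have k2 : 0 ≤ (a - b) * (q * (1 - s)) :=
        mul_nonneg hab (mul_nonneg q0 (by linarith))
      have k3 : 0 ≤ b * (m * p - s * q) := mul_nonneg hb.le (by linarith)
      have key : a * (z + p + q + r) - a * s * (z + q) + a * b * y + b * (1 - c) * (1 - a) * z -
          (b * (z + p + q + r) - b * m * (z + p) + a * b * y + a * c * (1 - b) * z) =
          (a - b) * (p + r) + (a - b) * (q * (1 - s)) + b * (m * p - s * q) := by
        rw [hs, hm]
        ring
      linarith
    · have hpq2 : q ≤ p := by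
        have h5 : m * q ≤ s * q := mul_le_mul_of_nonneg_right hms q0
        have h6 : m * q ≤ m * p := le_trans h5 hpq
        exact le_of_mul_le_mul_left h6 m0
      have k1 : 0 ≤ a * r := mul_nonneg ha0.le r0
      have k2 : 0 ≤ a * (1 - c) * (p - q) :=
        mul_nonneg (mul_nonneg ha0.le (by linarith)) (by linarith)
      have k3 : 0 ≤ q * (a - b * ((1 - c) * (1 - a))) := by
        apply mul_nonneg q0
        have h7 : (1 - c) * (1 - a) ≤ 1 := by nlinarith
        nlinarith
      have key : a * (z + p + q + r) - a * s * (z + q) + a * b * y + b * (1 - c) * (1 - a) * z -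
          (a * c * (z + p) + b * (1 - c) * (z + q) + a * b * y) =
          a * r + a * (1 - c) * (p - q) + q * (a - b * ((1 - c) * (1 - a))) := by
        rw [hs]
        ring
      linarith

end Pool.Agent.Results.MP_582e6d_pr.MotherFirst
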